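import Pool.Agent.Lib.MP_68dca0_co.Defs
import Pool.Agent.Lib.MP_68dca0_co.Asym

namespace Pool.Agent.Results.MP_68dca0_co.PolyArea

open Pool.Agent.Lib.MP_68dca0_co

theorem result (ε : ℝ) (hε : 0 < ε) : ∀ᶠ n : ℕ in Filter.atTop,
    (n : ℝ) * 2 ^ ((1 - ε) * √(Real.logb 2 n * Real.logb 2 (Real.logb 2 n))) ≤ polyArea n ∧
    (polyArea n : ℝ) ≤ n * 2 ^ ((1 + ε) * √(Real.logb 2 n * Real.logb 2 (Real.logb 2 n))) :=
  (lower_asym hε).and (upper_asym hε)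

end Pool.Agent.Results.MP_68dca0_co.PolyArea
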