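import Pool.Agent.Lib.MP_68dca0_co.StDefs
import Pool.Agent.Lib.MP_68dca0_co.StMain

namespace Pool.Agent.Results.MP_68dca0_co.StraightLower

open Pool.Agent.Lib.MP_68dca0_co

theorem result : ∃ c : ℝ, 0 < c ∧ ∀ n ≥ 256, ∃ G : SimpleGraph (Fin n), ¬ HasK4Minor G ∧
    ∀ W H : ℕ, HasStraight G W H → c * (n : ℝ) ^ (21 / 20 : ℝ) ≤ W * H :=
  straight_lower

end Pool.Agent.Results.MP_68dca0_co.StraightLower
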