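import Pool.Agent.Lib.MP_68dca0_co.StDefs
import Pool.Agent.Lib.MP_68dca0_co.UpG

namespace Pool.Agent.Results.MP_68dca0_co.StraightUpper

open Pool.Agent.Lib.MP_68dca0_co

theorem result : ∃ c : ℝ, ∀ n ≥ 1, ∀ G : SimpleGraph (Fin n), ¬ HasK4Minor G →
    ∃ W H : ℕ, HasStraight G W H ∧ (W : ℝ) ≤ c * (n : ℝ) ^ (6 / 5 : ℝ) ∧
      (H : ℝ) ≤ c * (n : ℝ) ^ (3 / 4 : ℝ) ∧ (W * H : ℝ) ≤ c * (n : ℝ) ^ (39 / 20 : ℝ) :=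
  Up.straight_upper

end Pool.Agent.Results.MP_68dca0_co.StraightUpper
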